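import Mathlib

/-!
# The real tree spanned by a left-invariant 0-hyperbolic length function on a group

Given a group `G` with a length function `L` whose Gromov products satisfy the ultrametric
inequality, we construct a real tree with an isometric action of `G` and a base point `o` such
that `dist o (g • o) = L g` and such that every point lies on a segment `[o, g • o]`.
-/

namespace Pool.Agent.H2

/-- A length function on a group: `L 1 = 0`, `L g⁻¹ = L g` and the Gromov products
`(L g + L h - L (g⁻¹ h)) / 2` satisfy the ultrametric inequality. -/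
structure LengthFn (G : Type) [Group G] where
  /-- the length -/
  L : G → ℝ
  one : L 1 = 0
  inv : ∀ g, L g⁻¹ = L g
  hyp : ∀ g h k, min ((L g + L h - L (g⁻¹ * h)) / 2) ((L h + L k - L (h⁻¹ * k)) / 2) ≤
    (L g + L k - L (g⁻¹ * k)) / 2

namespace LengthFn

variable {G : Type} [Group G] (Λ : LengthFn G)

/-- Gromov product. -/
noncomputable def gp (g h : G) : ℝ := (Λ.L g + Λ.L h - Λ.L (g⁻¹ * h)) / 2

theorem gp_hyp (g h k : G) : min (Λ.gp g h) (Λ.gp h k) ≤ Λ.gp g k := Λ.hyp g h k

theorem gp_comm (g h : G) : Λ.gp g h = Λ.gp h g := by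
  unfold gp
  have : Λ.L (g⁻¹ * h) = Λ.L (h⁻¹ * g) := by
    rw [← Λ.inv (g⁻¹ * h)]
    simp
  rw [this]
  ring

theorem gp_self (g : G) : Λ.gp g g = Λ.L g := by
  simp [gp, Λ.one]

theorem gp_one (g : G) : Λ.gp g 1 = 0 := by
  simp [gp, Λ.one, Λ.inv]

theorem one_gp (g : G) : Λ.gp 1 g = 0 := by
  rw [gp_comm, gp_one]

theorem gp_nonneg (g h : G) : 0 ≤ Λ.gp g h := by
  have := Λ.gp_hyp g 1 h
  rwa [gp_one, one_gp, min_self] at this

theorem L_nonneg (g : G) : 0 ≤ Λ.L g := by
  have := Λ.gp_nonneg g g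
  rwa [gp_self] at this

theorem gp_le_left (g h : G) : Λ.gp g h ≤ Λ.L g := by
  have := Λ.gp_nonneg g⁻¹ (g⁻¹ * h)
  unfold gp at *
  rw [Λ.inv] at this
  simp only [inv_inv, mul_inv_cancel_left] at this
  linarith

theorem gp_le_right (g h : G) : Λ.gp g h ≤ Λ.L h := by
  rw [gp_comm]; exact Λ.gp_le_left h g

/-- A point of the hull: `(g, s)` stands for the point at distance `s` (clamped) from the base
point on the segment from the base point `o` to `g • o`. -/
structure Pts (Λ : LengthFn G) where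
  /-- the direction -/
  g : G
  /-- the height -/
  s : ℝ

variable {Λ}

/-- Height of a point. -/
noncomputable def Pts.ht (p : Λ.Pts) : ℝ := max 0 (min p.s (Λ.L p.g))

theorem Pts.ht_nonneg (p : Λ.Pts) : 0 ≤ p.ht := le_max_left _ _

theorem Pts.ht_le (p : Λ.Pts) : p.ht ≤ Λ.L p.g :=
  max_le (Λ.L_nonneg _) (min_le_right _ _)

theorem Pts.ht_mk {g : G} {s : ℝ} (h0 : 0 ≤ s) (h1 : s ≤ Λ.L g) :
    (Pts.mk g s : Λ.Pts).ht = s := by
  simp [Pts.ht, min_eq_left h1, max_eq_right h0]

/-- Height of the branch point of two points. -/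
noncomputable def meet (p q : Λ.Pts) : ℝ := min (min p.ht q.ht) (Λ.gp p.g q.g)

theorem meet_self (p : Λ.Pts) : meet p p = p.ht := by
  simp [meet, gp_self, p.ht_le]

theorem meet_comm (p q : Λ.Pts) : meet p q = meet q p := by
  simp [meet, gp_comm, min_comm]

theorem meet_le_left (p q : Λ.Pts) : meet p q ≤ p.ht :=
  (min_le_left _ _).trans (min_le_left _ _)

theorem meet_le_right (p q : Λ.Pts) : meet p q ≤ q.ht :=
  (min_le_left _ _).trans (min_le_right _ _)

theorem meet_le_gp (p q : Λ.Pts) : meet p q ≤ Λ.gp p.g q.g := min_le_right _ _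

theorem meet_nonneg (p q : Λ.Pts) : 0 ≤ meet p q :=
  le_min (le_min p.ht_nonneg q.ht_nonneg) (Λ.gp_nonneg _ _)

theorem meet_hyp (p q r : Λ.Pts) : min (meet p q) (meet q r) ≤ meet p r := by
  refine le_min (le_min ?_ ?_) ?_
  · exact (min_le_left _ _).trans (meet_le_left _ _)
  · exact (min_le_right _ _).trans (meet_le_right _ _)
  · exact (min_le_min (meet_le_gp _ _) (meet_le_gp _ _)).trans (Λ.gp_hyp _ _ _)

noncomputable instance : PseudoMetricSpace Λ.Pts where
  dist p q := p.ht + q.ht - 2 * meet p q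
  dist_self p := by
    rw [meet_self]; ring
  dist_comm p q := by
    rw [meet_comm]; ring
  dist_triangle p q r := by
    have h := meet_hyp p q r
    have h1 := meet_le_right p q
    have h2 := meet_le_left q r
    rcases min_le_iff.1 h with h | h <;> linarith

theorem dist_def (p q : Λ.Pts) : dist p q = p.ht + q.ht - 2 * meet p q := rfl

/-- The point of the orbit of the base point given by `z`. -/
noncomputable def orb (Λ : LengthFn G) (z : G) : Λ.Pts := ⟨z, Λ.L z⟩

theorem ht_orb (z : G) : (Λ.orb z).ht = Λ.L z := Pts.ht_mk (Λ.L_nonneg z) le_rfl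

theorem dist_orb (p : Λ.Pts) (z : G) :
    dist p (Λ.orb z) = p.ht + Λ.L z - 2 * min p.ht (Λ.gp p.g z) := by
  rw [dist_def, ht_orb, meet, ht_orb]
  congr 2
  change min (min p.ht (Λ.L z)) (Λ.gp p.g z) = _
  rw [min_assoc, min_eq_right (a := Λ.L z) (Λ.gp_le_right _ _)]

theorem dist_orb_orb (y z : G) : dist (Λ.orb y) (Λ.orb z) = Λ.L (y⁻¹ * z) := by
  rw [dist_orb, ht_orb]
  change Λ.L y + Λ.L z - 2 * min (Λ.L y) (Λ.gp y z) = _
  rw [min_eq_right (Λ.gp_le_left _ _), gp]
  ring

/-- The distance of two points is realised by a point of the orbit. -/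
theorem exists_dist_eq (p q : Λ.Pts) :
    ∃ z, dist p q = |dist p (Λ.orb z) - dist q (Λ.orb z)| := by
  have hp0 := p.ht_nonneg
  have hq0 := q.ht_nonneg
  have hpL := p.ht_le
  rcases le_or_gt (min q.ht (Λ.gp p.g q.g)) p.ht with h | h
  · refine ⟨p.g, ?_⟩
    rw [dist_def, dist_orb, dist_orb, gp_self, min_eq_left hpL, meet, min_assoc, min_eq_right h,
      gp_comm Λ q.g]
    have h' := min_le_left q.ht (Λ.gp p.g q.g)
    rw [abs_sub_comm, abs_of_nonneg]
    · ring
    · linarith
  · refine ⟨1, ?_⟩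
    rw [dist_def, dist_orb, dist_orb, gp_one, gp_one, min_eq_right hp0, min_eq_right hq0, Λ.one,
      meet, min_assoc, min_eq_left h.le]
    have := (lt_min_iff.1 h).1
    rw [abs_sub_comm, abs_of_nonneg] <;> linarith

theorem abs_dist_sub_le' (p q r : Λ.Pts) : |dist p r - dist q r| ≤ dist p q := by
  rw [abs_le]
  constructor
  · have := dist_triangle q p r
    rw [dist_comm q p] at this
    linarith
  · have := dist_triangle p q r
    linarith

/-- The translate of a point. -/
noncomputable def trans (k : G) (p : Λ.Pts) : Λ.Pts :=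
  if p.ht ≤ Λ.L k - Λ.gp k (k * p.g) then ⟨k, Λ.L k - p.ht⟩
  else ⟨k * p.g, p.ht + 2 * Λ.gp k (k * p.g) - Λ.L k⟩

theorem dist_trans_orb (k : G) (p : Λ.Pts) (z : G) :
    dist (trans k p) (Λ.orb (k * z)) = dist p (Λ.orb z) := by
  obtain ⟨x, s⟩ := p
  set P : Λ.Pts := ⟨x, s⟩ with hP
  have hs0 : 0 ≤ P.ht := P.ht_nonneg
  have hs1 : P.ht ≤ Λ.L x := P.ht_le
  have hgx : P.g = x := rfl
  rw [dist_orb P z, hgx]
  unfold trans
  rw [hgx]
  clear_value P
  set A := Λ.L k with hA
  set α := Λ.gp k (k * x) with hα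
  set β := Λ.gp k (k * z) with hβ
  set γ := Λ.gp (k * x) (k * z) with hγ
  set u := P.ht with hu
  have hLx : Λ.L x = A + Λ.L (k * x) - 2 * α := by
    rw [hα, gp, inv_mul_cancel_left]; ring
  have hLz : Λ.L z = A + Λ.L (k * z) - 2 * β := by
    rw [hβ, gp, inv_mul_cancel_left]; ring
  have hxz : Λ.gp x z = A - α - β + γ := by
    have e : Λ.L ((k * x)⁻¹ * (k * z)) = Λ.L (x⁻¹ * z) := by
      congr 1; group
    rw [hγ, gp, gp, e, hLx, hLz]
    ring
  have u1 : min α β ≤ γ := by
    have := Λ.gp_hyp (k * x) k (k * z)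
    rwa [gp_comm Λ (k * x) k] at this
  have u2 : min α γ ≤ β := Λ.gp_hyp k (k * x) (k * z)
  have u3 : min β γ ≤ α := by
    have := Λ.gp_hyp k (k * z) (k * x)
    rwa [gp_comm Λ (k * z) (k * x)] at this
  have a0 : 0 ≤ α := Λ.gp_nonneg _ _
  have b0 : 0 ≤ β := Λ.gp_nonneg _ _
  have g0 : 0 ≤ γ := Λ.gp_nonneg _ _
  have aA : α ≤ A := Λ.gp_le_left _ _
  have bA : β ≤ A := Λ.gp_le_left _ _
  have aX : α ≤ Λ.L (k * x) := Λ.gp_le_right _ _
  have gX : γ ≤ Λ.L (k * x) := Λ.gp_le_left _ _
  rw [hLx] at hs1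
  rw [hLz, hxz]
  split_ifs with hcase
  · rw [dist_orb, Pts.ht_mk (by linarith) (by linarith)]
    change A - u + Λ.L (k * z) - 2 * min (A - u) β =
      u + (A + Λ.L (k * z) - 2 * β) - 2 * min u (A - α - β + γ)
    have key : min (A - u) β + u = min u (A - α - β + γ) + β := by
      rcases le_total (A - u) β with h1 | h1 <;>
      rcases le_total u (A - α - β + γ) with h2 | h2 <;>
      rcases min_le_iff.1 u1 with h3 | h3 <;>
      rcases min_le_iff.1 u2 with h4 | h4 <;>
      rcases min_le_iff.1 u3 with h5 | h5 <;>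
      simp only [min_eq_left, min_eq_right, h1, h2] <;> linarith
    linarith
  · rw [not_le] at hcase
    rw [dist_orb, Pts.ht_mk (by linarith) (by linarith)]
    change u + 2 * α - A + Λ.L (k * z) - 2 * min (u + 2 * α - A) γ =
      u + (A + Λ.L (k * z) - 2 * β) - 2 * min u (A - α - β + γ)
    have key : min (u + 2 * α - A) γ = min u (A - α - β + γ) + α + β - A := by
      rcases le_total (u + 2 * α - A) γ with h1 | h1 <;>
      rcases le_total u (A - α - β + γ) with h2 | h2 <;>
      rcases min_le_iff.1 u1 with h3 | h3 <;>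
      rcases min_le_iff.1 u2 with h4 | h4 <;>
      rcases min_le_iff.1 u3 with h5 | h5 <;>
      simp only [min_eq_left, min_eq_right, h1, h2] <;> linarith
    linarith

/-- If two points have translates seen from the orbit, distances are preserved. -/
theorem dist_eq_of_orb (k : G) {p q p' q' : Λ.Pts}
    (hp : ∀ z, dist p' (Λ.orb (k * z)) = dist p (Λ.orb z))
    (hq : ∀ z, dist q' (Λ.orb (k * z)) = dist q (Λ.orb z)) : dist p' q' = dist p q := by
  apply le_antisymm
  · obtain ⟨z, hz⟩ := exists_dist_eq p' q'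
    obtain ⟨z, rfl⟩ : ∃ y, z = k * y := ⟨k⁻¹ * z, by simp⟩
    rw [hz, hp, hq]
    exact abs_dist_sub_le' _ _ _
  · obtain ⟨z, hz⟩ := exists_dist_eq p q
    rw [hz, ← hp, ← hq]
    exact abs_dist_sub_le' _ _ _

theorem dist_trans_trans (k : G) (p q : Λ.Pts) : dist (trans k p) (trans k q) = dist p q :=
  dist_eq_of_orb k (dist_trans_orb k p) (dist_trans_orb k q)

theorem dist_one_trans (p : Λ.Pts) : dist (trans 1 p) p = 0 := by
  rw [dist_eq_of_orb 1 (p := p) (q := p) (dist_trans_orb 1 p) (fun z => by rw [one_mul]),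
    dist_self]

theorem dist_mul_trans (k l : G) (p : Λ.Pts) : dist (trans (k * l) p) (trans k (trans l p)) = 0 := by
  rw [dist_eq_of_orb (k * l) (p := p) (q := p) (dist_trans_orb _ p) (fun z => by
    rw [mul_assoc, dist_trans_orb, dist_trans_orb]), dist_self]

theorem dist_trans_orb_self (k z : G) : dist (trans k (Λ.orb z)) (Λ.orb (k * z)) = 0 := by
  rw [dist_trans_orb, dist_self]

variable (Λ)

/-- The hull: the real tree spanned by the length function. -/
abbrev Hull : Type := SeparationQuotient Λ.Pts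

variable {Λ}

/-- class of a point -/
noncomputable abbrev cl (p : Λ.Pts) : Λ.Hull := SeparationQuotient.mk p

theorem cl_eq_iff {p q : Λ.Pts} : cl p = cl q ↔ dist p q = 0 := by
  rw [SeparationQuotient.mk_eq_mk, Metric.inseparable_iff]

theorem dist_cl (p q : Λ.Pts) : dist (cl p) (cl q) = dist p q := rfl

theorem dist_cl_mk {g h : G} {u v : ℝ} (hu0 : 0 ≤ u) (hu1 : u ≤ Λ.L g) (hv0 : 0 ≤ v)
    (hv1 : v ≤ Λ.L h) : dist (cl (⟨g, u⟩ : Λ.Pts)) (cl (⟨h, v⟩ : Λ.Pts)) =
      u + v - 2 * min (min u v) (Λ.gp g h) := by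
  rw [dist_cl, dist_def, meet, Pts.ht_mk hu0 hu1, Pts.ht_mk hv0 hv1]

theorem cl_ht (p : Λ.Pts) : cl (⟨p.g, p.ht⟩ : Λ.Pts) = cl p := by
  have h : (⟨p.g, p.ht⟩ : Λ.Pts).ht = p.ht := Pts.ht_mk p.ht_nonneg p.ht_le
  rw [cl_eq_iff, dist_def, meet, h, min_self]
  change p.ht + p.ht - 2 * min p.ht (Λ.gp p.g p.g) = 0
  rw [gp_self, min_eq_left p.ht_le]
  ring

theorem trans_congr (k : G) {p q : Λ.Pts} (h : cl p = cl q) :
    cl (trans k p) = cl (trans k q) := by
  rw [cl_eq_iff] at *
  rw [dist_trans_trans, h]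

noncomputable instance : MulAction G Λ.Hull where
  smul k := SeparationQuotient.lift (fun p => cl (trans k p))
    (fun p q h => trans_congr k (SeparationQuotient.mk_eq_mk.2 h))
  one_smul x := by
    obtain ⟨p, rfl⟩ := SeparationQuotient.surjective_mk x
    exact cl_eq_iff.2 (dist_one_trans p)
  mul_smul k l x := by
    obtain ⟨p, rfl⟩ := SeparationQuotient.surjective_mk x
    exact cl_eq_iff.2 (dist_mul_trans k l p)

theorem smul_cl (k : G) (p : Λ.Pts) : k • cl p = cl (trans k p) := rfl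

theorem dist_smul_smul' (k : G) (x y : Λ.Hull) : dist (k • x) (k • y) = dist x y := by
  obtain ⟨p, rfl⟩ := SeparationQuotient.surjective_mk x
  obtain ⟨q, rfl⟩ := SeparationQuotient.surjective_mk y
  exact dist_trans_trans k p q

variable (Λ) in
/-- The base point. -/
noncomputable def base : Λ.Hull := cl (Λ.orb 1)

theorem smul_base (k : G) : k • Λ.base = cl (Λ.orb k) := by
  rw [base, smul_cl, cl_eq_iff]
  have := dist_trans_orb_self (Λ := Λ) k 1
  rwa [mul_one] at this

theorem dist_base_smul (k : G) : dist Λ.base (k • Λ.base) = Λ.L k := by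
  rw [smul_base, base, dist_cl, dist_orb_orb]
  simp

/-- Every point lies on a segment from the base point to a translate of it. -/
theorem exists_between (x : Λ.Hull) :
    ∃ k : G, dist Λ.base x + dist x (k • Λ.base) = dist Λ.base (k • Λ.base) := by
  obtain ⟨p, rfl⟩ := SeparationQuotient.surjective_mk x
  refine ⟨p.g, ?_⟩
  rw [dist_base_smul, smul_base, base]
  change dist (Λ.orb 1) p + dist p (Λ.orb p.g) = _
  rw [dist_comm, dist_orb, dist_orb, gp_one, gp_self, min_eq_right p.ht_nonneg,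
    min_eq_left p.ht_le, Λ.one]
  ring

/-- The four point inequality in the hull. -/
theorem four_point (x y z w : Λ.Hull) :
    dist x y + dist z w ≤ max (dist x z + dist y w) (dist x w + dist y z) := by
  obtain ⟨x, rfl⟩ := SeparationQuotient.surjective_mk x
  obtain ⟨y, rfl⟩ := SeparationQuotient.surjective_mk y
  obtain ⟨z, rfl⟩ := SeparationQuotient.surjective_mk z
  obtain ⟨w, rfl⟩ := SeparationQuotient.surjective_mk w
  simp only [SeparationQuotient.dist_mk, dist_def]
  have h1 := meet_hyp x z y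
  have h2 := meet_hyp x w y
  have h3 := meet_hyp z x w
  have h4 := meet_hyp z y w
  rw [meet_comm z y] at h1
  rw [meet_comm w y] at h2
  rw [meet_comm z x] at h3
  rw [meet_comm z y] at h4
  rw [le_max_iff]
  by_contra hcon
  rw [not_or, not_le, not_le] at hcon
  obtain ⟨hc1, hc2⟩ := hcon
  rcases min_le_iff.1 h1 with h1 | h1 <;> rcases min_le_iff.1 h2 with h2 | h2 <;>
  rcases min_le_iff.1 h3 with h3 | h3 <;> rcases min_le_iff.1 h4 with h4 | h4 <;> linarith

/-- Geodesics in the hull. -/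
theorem exists_geodesic (x y : Λ.Hull) : ∃ γ : ℝ → Λ.Hull, γ 0 = x ∧ γ (dist x y) = y ∧
    ∀ s ∈ Set.Icc (0 : ℝ) (dist x y), ∀ t ∈ Set.Icc (0 : ℝ) (dist x y),
      dist (γ s) (γ t) = |s - t| := by
  obtain ⟨p, rfl⟩ := SeparationQuotient.surjective_mk x
  obtain ⟨q, rfl⟩ := SeparationQuotient.surjective_mk y
  set m := meet p q with hm
  have hm0 : 0 ≤ m := meet_nonneg p q
  have hmp : m ≤ p.ht := meet_le_left p q
  have hmq : m ≤ q.ht := meet_le_right p q
  have hmg : m ≤ Λ.gp p.g q.g := meet_le_gp p q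
  have hpL := p.ht_le
  have hqL := q.ht_le
  have hD : dist (SeparationQuotient.mk p) (SeparationQuotient.mk q) = p.ht + q.ht - 2 * m := rfl
  rw [hD]
  set γ : ℝ → Λ.Hull := fun t => if t ≤ p.ht - m then cl ⟨p.g, p.ht - t⟩
    else cl ⟨q.g, t - p.ht + 2 * m⟩ with hγ
  have e0 : γ 0 = SeparationQuotient.mk p := by
    simp only [hγ]
    rw [if_pos (by linarith), sub_zero]
    exact cl_ht p
  have e1 : γ (p.ht + q.ht - 2 * m) = SeparationQuotient.mk q := by
    simp only [hγ]
    split_ifs with h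
    · -- then `q.ht = m`
      have hq : q.ht = m := by linarith
      have e : p.ht - (p.ht + q.ht - 2 * m) = m := by linarith
      rw [e]
      refine Eq.trans ?_ (cl_ht q)
      rw [hq, ← dist_eq_zero, dist_cl_mk hm0 (hmp.trans hpL) hm0 (hmq.trans hqL), min_self,
        min_eq_left hmg]
      ring
    · have e : p.ht + q.ht - 2 * m - p.ht + 2 * m = q.ht := by ring
      rw [e]
      exact cl_ht q
  refine ⟨γ, e0, e1, ?_⟩
  -- distances between points of the first and of the second piece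
  have c11 : ∀ s t, 0 ≤ s → s ≤ p.ht - m → 0 ≤ t → t ≤ p.ht - m → s ≤ t →
      dist (cl (⟨p.g, p.ht - s⟩ : Λ.Pts)) (cl (⟨p.g, p.ht - t⟩ : Λ.Pts)) = t - s := by
    intro s t hs0 hs1 ht0 ht1 hst
    rw [dist_cl_mk (by linarith) (by linarith) (by linarith) (by linarith), gp_self,
      min_eq_right (a := p.ht - s) (by linarith), min_eq_left (by linarith)]
    ring
  have c22 : ∀ s t, p.ht - m < s → s ≤ p.ht + q.ht - 2 * m → p.ht - m < t →
      t ≤ p.ht + q.ht - 2 * m → s ≤ t →
      dist (cl (⟨q.g, s - p.ht + 2 * m⟩ : Λ.Pts)) (cl (⟨q.g, t - p.ht + 2 * m⟩ : Λ.Pts)) =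
        t - s := by
    intro s t hs0 hs1 ht0 ht1 hst
    rw [dist_cl_mk (by linarith) (by linarith) (by linarith) (by linarith), gp_self,
      min_eq_left (a := s - p.ht + 2 * m) (by linarith), min_eq_left (by linarith)]
    ring
  have c12 : ∀ s t, 0 ≤ s → s ≤ p.ht - m → p.ht - m < t →
      t ≤ p.ht + q.ht - 2 * m →
      dist (cl (⟨p.g, p.ht - s⟩ : Λ.Pts)) (cl (⟨q.g, t - p.ht + 2 * m⟩ : Λ.Pts)) =
        t - s := by
    intro s t hs0 hs1 ht0 ht1
    rw [dist_cl_mk (by linarith) (by linarith) (by linarith) (by linarith)]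
    have key : min (min (p.ht - s) (t - p.ht + 2 * m)) (Λ.gp p.g q.g) = m := by
      apply le_antisymm
      · -- one of the three numbers is at most `m`
        have : min (min p.ht q.ht) (Λ.gp p.g q.g) = m := hm.symm
        rcases min_choice (min p.ht q.ht) (Λ.gp p.g q.g) with h | h
        · rcases min_choice p.ht q.ht with h' | h'
          · -- m = p.ht
            have hmp' : p.ht = m := by rw [← this, h, h']
            exact (min_le_left _ _).trans ((min_le_left _ _).trans (by linarith))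
          · -- m = q.ht
            have hmq' : q.ht = m := by rw [← this, h, h']
            exfalso
            linarith
        · have : Λ.gp p.g q.g = m := by rw [← this, h]
          exact (min_le_right _ _).trans this.le
      · exact le_min (le_min (by linarith) (by linarith)) hmg
    rw [key]
    ring
  have main : ∀ s t, 0 ≤ s → s ≤ t → t ≤ p.ht + q.ht - 2 * m → dist (γ s) (γ t) = t - s := by
    intro s t hs hst ht
    simp only [hγ]
    split_ifs with h1 h2 h2
    · exact c11 s t hs h1 (hs.trans hst) h2 hst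
    · exact c12 s t hs h1 (not_le.1 h2) ht
    · exact absurd (hst.trans h2) h1
    · exact c22 s t (not_le.1 h1) (hst.trans ht) (not_le.1 h2) ht hst
  intro s hs t ht
  rcases le_total s t with h | h
  · rw [main s t hs.1 h ht.2, abs_sub_comm, abs_of_nonneg (by linarith)]
  · rw [dist_comm, main t s ht.1 h hs.2, abs_of_nonneg (by linarith)]

end LengthFn

end Pool.Agent.H2
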