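import Mathlib
import Pool.Agent.H2.Hull

/-!
# Weighted word length on free groups

For non-negative weights on the generators of a free group, the weighted length of the reduced
word is a length function in the sense of `Pool.Agent.H2.LengthFn`. We also record the two facts
on elements fixing points which are needed for the associated trees.
-/

namespace Pool.Agent.H2

open FreeGroup

section Lcp

variable {α : Type} [DecidableEq α]

/-- Longest common prefix of two lists. -/
def lcp : List α → List α → List α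
  | a :: l, b :: l' => if a = b then a :: lcp l l' else []
  | [], _ => []
  | _ :: _, [] => []

theorem lcp_nil_left (l : List α) : lcp [] l = [] := by cases l <;> rfl

theorem lcp_nil_right (l : List α) : lcp l [] = [] := by cases l <;> rfl

theorem lcp_cons_same (a : α) (l l' : List α) : lcp (a :: l) (a :: l') = a :: lcp l l' := by
  simp [lcp]

theorem lcp_cons_ne {a b : α} (h : a ≠ b) (l l' : List α) : lcp (a :: l) (b :: l') = [] := by
  simp [lcp, h]

end Lcp

set_option linter.unusedSectionVars false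

variable {κ : Type} [DecidableEq κ] (ℓ : κ → ℝ)

omit [DecidableEq κ] in
theorem isReduced_left {l l' : List (κ × Bool)} (h : FreeGroup.IsReduced (l ++ l')) :
    FreeGroup.IsReduced l := (List.isChain_append.1 h).1

omit [DecidableEq κ] in
theorem isReduced_right {l l' : List (κ × Bool)} (h : FreeGroup.IsReduced (l ++ l')) :
    FreeGroup.IsReduced l' := (List.isChain_append.1 h).2.1

/-- Weight of a word. -/
def wt (l : List (κ × Bool)) : ℝ := (l.map (fun x => ℓ x.1)).sum

theorem wt_nil : wt ℓ [] = 0 := rfl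

theorem wt_cons (x : κ × Bool) (l : List (κ × Bool)) : wt ℓ (x :: l) = ℓ x.1 + wt ℓ l := by
  simp [wt]

theorem wt_append (l l' : List (κ × Bool)) : wt ℓ (l ++ l') = wt ℓ l + wt ℓ l' := by
  simp [wt]

theorem wt_invRev (l : List (κ × Bool)) : wt ℓ (invRev l) = wt ℓ l := by
  simp only [wt, invRev, List.map_reverse, List.sum_reverse, List.map_map]
  rfl

variable {ℓ}

theorem wt_nonneg (hℓ : ∀ i, 0 ≤ ℓ i) (l : List (κ × Bool)) : 0 ≤ wt ℓ l := by
  apply List.sum_nonneg
  intro x hx
  obtain ⟨y, -, rfl⟩ := List.mem_map.1 hx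
  exact hℓ _

theorem eq_zero_of_wt_le (hℓ : ∀ i, 0 ≤ ℓ i) {l : List (κ × Bool)} (h : wt ℓ l ≤ 0) :
    ∀ x ∈ l, ℓ x.1 = 0 := by
  induction l with
  | nil => simp
  | cons y l ih =>
    rw [wt_cons] at h
    have h1 := hℓ y.1
    have h2 := wt_nonneg hℓ l
    intro x hx
    rcases List.mem_cons.1 hx with rfl | hx
    · linarith
    · exact ih (by linarith) x hx

theorem wt_eq_zero {l : List (κ × Bool)} (h : ∀ x ∈ l, ℓ x.1 = 0) : wt ℓ l = 0 := by
  induction l with
  | nil => rfl
  | cons y l ih =>
    rw [wt_cons, h y (by simp), ih (fun x hx => h x (by simp [hx])), add_zero]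

theorem wt_lcp_hyp (hℓ : ∀ i, 0 ≤ ℓ i) (l1 l2 l3 : List (κ × Bool)) :
    min (wt ℓ (lcp l1 l2)) (wt ℓ (lcp l2 l3)) ≤ wt ℓ (lcp l1 l3) := by
  induction l1 generalizing l2 l3 with
  | nil =>
    simp only [lcp_nil_left, wt_nil]
    exact min_le_left _ _
  | cons a l1 ih =>
    cases l2 with
    | nil =>
      simp only [lcp_nil_left, lcp_nil_right, wt_nil, min_self]
      exact wt_nonneg hℓ _
    | cons b l2 =>
      cases l3 with
      | nil =>
        simp only [lcp_nil_right, wt_nil]
        exact min_le_right _ _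
      | cons c l3 =>
        by_cases hab : a = b
        · subst hab
          by_cases hac : a = c
          · subst hac
            simp only [lcp_cons_same, wt_cons]
            rw [min_add_add_left]
            have := ih l2 l3
            linarith
          · rw [lcp_cons_ne hac, lcp_cons_ne hac, wt_nil]
            exact min_le_right _ _
        · rw [lcp_cons_ne hab, wt_nil]
          exact (min_le_left _ _).trans (wt_nonneg hℓ _)

variable (ℓ)

/-- Weighted length of an element of a free group. -/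
def flen (g : FreeGroup κ) : ℝ := wt ℓ g.toWord

theorem flen_one : flen ℓ (1 : FreeGroup κ) = 0 := by simp [flen, wt_nil]

theorem flen_inv (g : FreeGroup κ) : flen ℓ g⁻¹ = flen ℓ g := by
  rw [flen, toWord_inv, wt_invRev, flen]

theorem flen_mk {l : List (κ × Bool)} (h : IsReduced l) : flen ℓ (mk l) = wt ℓ l := by
  rw [flen, toWord_mk, h.reduce_eq]

omit [DecidableEq κ] in
theorem invRev_append_isReduced {l l' : List (κ × Bool)} (h : IsReduced l) (h' : IsReduced l')
    (hne : ∀ x ∈ l.head?, ∀ y ∈ l'.head?, x ≠ y) : IsReduced (invRev l ++ l') := by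
  have hr : IsReduced (invRev l) := by
    classical
    rw [isReduced_iff_reduce_eq, reduce_invRev, h.reduce_eq]
  unfold FreeGroup.IsReduced at *
  rw [List.isChain_append]
  refine ⟨hr, h', ?_⟩
  intro x hx y hy hxy
  cases l with
  | nil => simp [invRev] at hx
  | cons a l =>
    have hx' : x = (a.1, !a.2) := by
      simp [invRev] at hx
      exact hx.symm
    have hay := hne a (by simp) y hy
    rw [hx'] at hxy ⊢
    simp only at hxy ⊢
    by_contra hcon
    apply hay
    apply Prod.ext hxy
    cases ha : a.2 <;> cases hb : y.2 <;> simp_all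

theorem flen_inv_mul (l l' : List (κ × Bool)) (h : IsReduced l) (h' : IsReduced l') :
    flen ℓ ((mk l)⁻¹ * mk l') = wt ℓ l + wt ℓ l' - 2 * wt ℓ (lcp l l') := by
  induction l generalizing l' with
  | nil =>
    have : (mk ([] : List (κ × Bool)))⁻¹ * mk l' = mk l' := by
      rw [← one_eq_mk]; simp
    rw [this, flen_mk ℓ h', lcp_nil_left, wt_nil]
    ring
  | cons a l ih =>
    cases l' with
    | nil =>
      have : (mk (a :: l))⁻¹ * mk ([] : List (κ × Bool)) = (mk (a :: l))⁻¹ := by
        rw [← one_eq_mk]; simp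
      rw [this, flen_inv, flen_mk ℓ h, lcp_nil_right, wt_nil]
      ring
    | cons b l' =>
      by_cases hab : a = b
      · subst hab
        have e : (mk (a :: l))⁻¹ * mk (a :: l') = (mk l)⁻¹ * mk l' := by
          have e1 : mk (a :: l) = mk [a] * mk l := by rw [mul_mk]; rfl
          have e2 : mk (a :: l') = mk [a] * mk l' := by rw [mul_mk]; rfl
          rw [e1, e2]
          group
        rw [e, ih l' (isReduced_right (l := [a]) h) (isReduced_right (l := [a]) h'), lcp_cons_same,
          wt_cons, wt_cons, wt_cons]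
        ring
      · have e : (mk (a :: l))⁻¹ * mk (b :: l') = mk (invRev (a :: l) ++ (b :: l')) := by
          rw [inv_mk, mul_mk]
        have hr : IsReduced (invRev (a :: l) ++ (b :: l')) := by
          apply invRev_append_isReduced h h'
          intro x hx y hy
          simp at hx hy
          rw [← hx, ← hy]
          exact hab
        rw [e, flen_mk ℓ hr, wt_append, wt_invRev, lcp_cons_ne hab, wt_nil]
        ring

theorem flen_gp (g h : FreeGroup κ) :
    (flen ℓ g + flen ℓ h - flen ℓ (g⁻¹ * h)) / 2 = wt ℓ (lcp g.toWord h.toWord) := by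
  have := flen_inv_mul ℓ g.toWord h.toWord isReduced_toWord isReduced_toWord
  rw [mk_toWord, mk_toWord] at this
  rw [this]
  unfold flen
  ring

variable {ℓ}

/-- The length function on a group `G` induced by a homomorphism to a free group. -/
def indLen {G : Type} [Group G] (hℓ : ∀ i, 0 ≤ ℓ i) (θ : G →* FreeGroup κ) : LengthFn G where
  L g := flen ℓ (θ g)
  one := by rw [_root_.map_one, flen_one]
  inv g := by rw [_root_.map_inv, flen_inv]
  hyp g h k := by
    simp only [_root_.map_mul, _root_.map_inv, flen_gp]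
    exact wt_lcp_hyp hℓ _ _ _

theorem flen_nonneg (hℓ : ∀ i, 0 ≤ ℓ i) (g : FreeGroup κ) : 0 ≤ flen ℓ g := wt_nonneg hℓ _

theorem flen_mul_le (hℓ : ∀ i, 0 ≤ ℓ i) (g h : FreeGroup κ) :
    flen ℓ (g * h) ≤ flen ℓ g + flen ℓ h := by
  have h1 := flen_gp ℓ g⁻¹ h
  have h2 := wt_nonneg hℓ (lcp g⁻¹.toWord h.toWord)
  rw [flen_inv, inv_inv] at h1
  linarith

/-- Conjugates of non-trivial elements of length zero. -/
theorem flen_conj (hℓ : ∀ i, 0 ≤ ℓ i) (l : List (κ × Bool)) (hl : IsReduced l)
    (u : FreeGroup κ) (hu1 : u ≠ 1) (hu : flen ℓ u = 0) :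
    flen ℓ ((mk l)⁻¹ * u * mk l) = 2 * wt ℓ l := by
  induction l generalizing u with
  | nil =>
    rw [← one_eq_mk, wt_nil, inv_one, one_mul, mul_one, hu, mul_zero]
  | cons x l ih =>
    have hl' : IsReduced l := isReduced_right (l := [x]) hl
    have e1 : mk (x :: l) = mk [x] * mk l := by rw [mul_mk]; rfl
    have hx1 : flen ℓ (mk [x]) = ℓ x.1 := by
      rw [flen_mk ℓ IsReduced.singleton, wt_cons, wt_nil, add_zero]
    by_cases hx : ℓ x.1 = 0
    · have h0 : flen ℓ ((mk [x])⁻¹ * u * mk [x]) = 0 := by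
        apply le_antisymm _ (flen_nonneg hℓ _)
        have h1 := flen_mul_le hℓ ((mk [x])⁻¹ * u) (mk [x])
        have h2 := flen_mul_le hℓ (mk [x])⁻¹ u
        rw [flen_inv, hx1, hx, hu] at h2
        rw [hx1, hx] at h1
        linarith
      have h1 : (mk [x])⁻¹ * u * mk [x] ≠ 1 := by
        intro h
        apply hu1
        have : u = mk [x] * ((mk [x])⁻¹ * u * mk [x]) * (mk [x])⁻¹ := by group
        rw [this, h]
        group
      have := ih hl' _ h1 h0
      rw [wt_cons, hx, zero_add, ← this, e1]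
      congr 1
      group
    · have hword : u.toWord ≠ [] := by rwa [Ne, toWord_eq_nil_iff]
      have hz : ∀ y ∈ u.toWord, ℓ y.1 = 0 := eq_zero_of_wt_le hℓ hu.le
      have r1 : IsReduced (u.toWord ++ (x :: l)) := by
        have := isReduced_toWord (x := u)
        unfold FreeGroup.IsReduced at *
        rw [List.isChain_append]
        refine ⟨this, hl, ?_⟩
        intro y hy z hz' hyz
        simp at hz'
        rw [← hz'] at hyz
        exact absurd (hz y (List.mem_of_getLast? hy)) (by rw [hyz]; exact hx)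
      have r2 : IsReduced (invRev (x :: l) ++ (u.toWord ++ (x :: l))) := by
        apply invRev_append_isReduced hl r1
        intro y hy z hz'
        simp at hy
        obtain ⟨w, ws, hw⟩ := List.exists_cons_of_ne_nil hword
        rw [hw] at hz'
        simp at hz'
        rw [← hy, ← hz']
        intro hxw
        exact hx (by rw [hxw]; exact hz w (by rw [hw]; simp))
      have e : (mk (x :: l))⁻¹ * u * mk (x :: l) =
          mk (invRev (x :: l) ++ (u.toWord ++ (x :: l))) := by
        conv_lhs => rw [← mk_toWord (x := u)]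
        rw [inv_mk, mul_mk, mul_mk, List.append_assoc]
      rw [e, flen_mk ℓ r2, wt_append, wt_append, wt_invRev]
      have : wt ℓ u.toWord = 0 := hu
      rw [this]
      ring

theorem flen_conj' (hℓ : ∀ i, 0 ≤ ℓ i) (b u : FreeGroup κ) (hu1 : u ≠ 1) (hu : flen ℓ u = 0) :
    flen ℓ (b⁻¹ * u * b) = 2 * flen ℓ b := by
  have := flen_conj hℓ b.toWord isReduced_toWord u hu1 hu
  rwa [mk_toWord] at this

/-- An element with `L (g ^ 2) ≤ L g` is conjugate to an element of length zero. -/
theorem exists_conj (hℓ : ∀ i, 0 ≤ ℓ i) (g : FreeGroup κ) (h : flen ℓ (g * g) ≤ flen ℓ g) :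
    ∃ c u : FreeGroup κ, g = c * u * c⁻¹ ∧ flen ℓ u = 0 := by
  set W := g.toWord with hW
  have hWr : IsReduced W := isReduced_toWord
  set C := reduceCyclically.conjugator W with hC
  set R := reduceCyclically W with hR
  have h0 := reduceCyclically.conj_conjugator_reduceCyclically W
  rw [← hC, ← hR] at h0
  have h1 := reduceCyclically.reduce_flatten_replicate_succ hWr 1
  rw [← hC, ← hR] at h1
  have h2 : (g * g).toWord = C ++ (R ++ R) ++ invRev C := by
    rw [toWord_mul, ← hW]
    simpa [List.replicate_succ] using h1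
  have h3 : flen ℓ (g * g) = wt ℓ C + (wt ℓ R + wt ℓ R) + wt ℓ C := by
    rw [flen, h2, wt_append, wt_append, wt_append, wt_invRev]
  have h4 : flen ℓ g = wt ℓ C + wt ℓ R + wt ℓ C := by
    rw [flen, ← hW, ← h0, wt_append, wt_append, wt_invRev]
  have h5 : wt ℓ R = 0 := le_antisymm (by linarith) (wt_nonneg hℓ _)
  refine ⟨mk C, mk R, ?_, ?_⟩
  · rw [inv_mk, mul_mk, mul_mk, h0, hW, mk_toWord]
  · rw [flen_mk ℓ, h5]
    rw [← h0] at hWr
    exact isReduced_right (isReduced_left hWr)

/-- The inequality which gives trivial arc stabilisers. -/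
theorem flen_two_point (hℓ : ∀ i, 0 ≤ ℓ i) (g : FreeGroup κ) (hg : g ≠ 1)
    (h : flen ℓ (g * g) ≤ flen ℓ g) (a b : FreeGroup κ) :
    2 * flen ℓ (a⁻¹ * b) ≤ flen ℓ (a⁻¹ * g * a) + flen ℓ (b⁻¹ * g * b) := by
  obtain ⟨c, u, rfl, hu⟩ := exists_conj hℓ g h
  have hu1 : u ≠ 1 := by
    rintro rfl
    apply hg
    group
  have key : ∀ d : FreeGroup κ, flen ℓ (d⁻¹ * (c * u * c⁻¹) * d) = 2 * flen ℓ (c⁻¹ * d) := by
    intro d
    rw [← flen_conj' hℓ (c⁻¹ * d) u hu1 hu]
    congr 1
    group
  rw [key, key]
  have h1 := flen_mul_le hℓ (c⁻¹ * a)⁻¹ (c⁻¹ * b)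
  rw [flen_inv] at h1
  have e : (c⁻¹ * a)⁻¹ * (c⁻¹ * b) = a⁻¹ * b := by group
  rw [e] at h1
  linarith

end Pool.Agent.H2
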