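import Mathlib
import Pool.Agent.H2.FreeLength

/-!
# The twisted length functions

For the free group on `Fin N` with distinguished generators `t` (index `i0`) and `a` (index `i1`)
we consider the injective homomorphism `θ n` to the free group on `Option (Fin N)` given by
`t ↦ s t s⁻¹ aⁿ` (where `s = none`) and `x ↦ x` on the other generators. The weight is `1/2` on
`s` and zero on all other generators. For an element whose reduced word has fewer than `n`
letters the resulting length is the number of letters `t ^ ±1` of its reduced word.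
-/

namespace Pool.Agent.H2

open FreeGroup

variable {N : ℕ} (i0 i1 : Fin N)

/-- The homomorphism `θ n`. -/
def theta (n : ℕ) : FreeGroup (Fin N) →* FreeGroup (Option (Fin N)) :=
  FreeGroup.lift (fun i => if i = i0 then
    of none * of (some i0) * (of none)⁻¹ * of (some i1) ^ n else of (some i))

/-- The weight counting `t`. -/
def wT (i : Fin N) : ℝ := if i = i0 then 1 else 0

/-- The weight `1/2` on `none`. -/
noncomputable def wS (i : Option (Fin N)) : ℝ := if i = none then 1 / 2 else 0

theorem wT_nonneg (i : Fin N) : 0 ≤ wT i0 i := by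
  unfold wT; split_ifs <;> norm_num

theorem wS_nonneg (i : Option (Fin N)) : 0 ≤ wS i := by
  unfold wS; split_ifs <;> norm_num

theorem theta_t (n : ℕ) : theta i0 i1 n (of i0) =
    of none * of (some i0) * (of none)⁻¹ * of (some i1) ^ n := by
  simp [theta]

theorem theta_ne (n : ℕ) {i : Fin N} (h : i ≠ i0) : theta i0 i1 n (of i) = of (some i) := by
  simp [theta, h]

theorem theta_injective (n : ℕ) (h01 : i1 ≠ i0) : Function.Injective (theta i0 i1 n) := by
  let π : FreeGroup (Option (Fin N)) →* FreeGroup (Fin N) :=
    FreeGroup.lift (fun o => match o with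
      | none => 1
      | some i => if i = i0 then of i0 * (of i1 ^ n)⁻¹ else of i)
  have h : π.comp (theta i0 i1 n) = MonoidHom.id _ := by
    apply FreeGroup.ext_hom
    intro i
    by_cases hi : i = i0
    · subst hi
      rw [MonoidHom.comp_apply, theta_t]
      simp [π, h01]
    · rw [MonoidHom.comp_apply, theta_ne i0 i1 n hi]
      simp [π, hi]
  intro x y hxy
  have := congrArg π hxy
  rwa [← MonoidHom.comp_apply, ← MonoidHom.comp_apply, h] at this

/-- elements all of whose letters are generators `some i` with `i ≠ i0` -/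
def IsA (u : FreeGroup (Option (Fin N))) : Prop := ∀ x ∈ u.toWord, ∃ i, i ≠ i0 ∧ x.1 = some i

variable {i0}

theorem IsA.mul {u v : FreeGroup (Option (Fin N))} (hu : IsA i0 u) (hv : IsA i0 v) :
    IsA i0 (u * v) := by
  intro x hx
  have := (toWord_mul_sublist u v).subset hx
  rcases List.mem_append.1 this with h | h
  · exact hu x h
  · exact hv x h

theorem IsA.inv {u : FreeGroup (Option (Fin N))} (hu : IsA i0 u) : IsA i0 u⁻¹ := by
  intro x hx
  rw [toWord_inv] at hx
  simp only [invRev, List.mem_reverse, List.mem_map] at hx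
  obtain ⟨y, hy, rfl⟩ := hx
  exact hu y hy

theorem isA_one : IsA i0 (1 : FreeGroup (Option (Fin N))) := by
  intro x hx
  simp at hx

theorem isA_of {i : Fin N} (h : i ≠ i0) : IsA i0 (of (some i)) := by
  intro x hx
  rw [toWord_of] at hx
  simp only [List.mem_singleton] at hx
  exact ⟨i, h, by rw [hx]⟩

theorem isA_pow {i : Fin N} (h : i ≠ i0) (n : ℕ) : IsA i0 (of (some i) ^ n) := by
  induction n with
  | zero => exact isA_one
  | succ n ih => rw [pow_succ]; exact ih.mul (isA_of h)

theorem flen_isA {u : FreeGroup (Option (Fin N))} (hu : IsA i0 u) : flen wS u = 0 := by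
  apply wt_eq_zero
  intro x hx
  obtain ⟨i, -, h⟩ := hu x hx
  simp [wS, h]

theorem flen_isA_mul {u : FreeGroup (Option (Fin N))} (hu : IsA i0 u)
    (h : FreeGroup (Option (Fin N))) : flen wS (u * h) = flen wS h := by
  apply le_antisymm
  · have := flen_mul_le wS_nonneg u h
    rwa [flen_isA hu, zero_add] at this
  · have := flen_mul_le wS_nonneg u⁻¹ (u * h)
    rwa [flen_isA hu.inv, zero_add, inv_mul_cancel_left] at this

/-- the reduced word starts with the letter `s` -/
def StartS (h : FreeGroup (Option (Fin N))) : Prop := ∃ r, h.toWord = (none, true) :: r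

theorem isA_not_startS {u : FreeGroup (Option (Fin N))} (hu : IsA i0 u) : ¬ StartS u := by
  rintro ⟨r, hr⟩
  obtain ⟨i, -, h⟩ := hu (none, true) (by rw [hr]; simp)
  simp at h

theorem isA_mul_not_startS {v h : FreeGroup (Option (Fin N))} (hv : IsA i0 v) (hv1 : v ≠ 1)
    (hh : StartS h) : ¬ StartS (v * h) := by
  obtain ⟨r, hr⟩ := hh
  have hred : FreeGroup.IsReduced (v.toWord ++ h.toWord) := by
    have h1 := isReduced_toWord (x := v)
    have h2 := isReduced_toWord (x := h)
    unfold FreeGroup.IsReduced at *
    rw [List.isChain_append]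
    refine ⟨h1, h2, ?_⟩
    intro x hx y hy hxy
    obtain ⟨i, -, hi⟩ := hv x (List.mem_of_getLast? hx)
    rw [hr] at hy
    simp at hy
    rw [← hy, hi] at hxy
    simp at hxy
  have hw : (v * h).toWord = v.toWord ++ h.toWord := by
    rw [toWord_mul, hred.reduce_eq]
  rintro ⟨r', hr'⟩
  have hne : v.toWord ≠ [] := by rwa [Ne, toWord_eq_nil_iff]
  obtain ⟨w, ws, hws⟩ := List.exists_cons_of_ne_nil hne
  rw [hw, hws, List.cons_append, List.cons.injEq] at hr'
  obtain ⟨i, -, hi⟩ := hv w (by rw [hws]; simp)
  rw [hr'.1] at hi
  simp at hi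

theorem toWord_conj_mul (b : Bool) {h : FreeGroup (Option (Fin N))} (hh : ¬ StartS h) :
    (of none * mk [(some i0, b)] * (of none)⁻¹ * h).toWord =
      (none, true) :: (some i0, b) :: (none, false) :: h.toWord := by
  have hred : FreeGroup.IsReduced ((none, true) :: (some i0, b) :: (none, false) :: h.toWord) := by
    rw [isReduced_cons_cons, isReduced_cons_cons]
    refine ⟨by simp, by simp, ?_⟩
    have h1 := isReduced_toWord (x := h)
    cases hw : h.toWord with
    | nil => exact IsReduced.singleton
    | cons y ys =>
      rw [isReduced_cons_cons, ← hw]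
      refine ⟨?_, h1⟩
      intro hy
      simp only at hy ⊢
      cases hb : y.2 with
      | false => rfl
      | true =>
        exfalso
        apply hh
        exact ⟨ys, by rw [hw]; congr 1; exact Prod.ext hy.symm hb⟩
  have e : of none * mk [(some i0, b)] * (of none)⁻¹ * h =
      mk ((none, true) :: (some i0, b) :: (none, false) :: h.toWord) := by
    conv_lhs => rw [← mk_toWord (x := h)]
    rw [of, inv_mk, mul_mk, mul_mk, mul_mk]
    rfl
  rw [e, toWord_mk, hred.reduce_eq]

theorem startS_conj_mul (b : Bool) {h : FreeGroup (Option (Fin N))} (hh : ¬ StartS h) :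
    StartS (of none * mk [(some i0, b)] * (of none)⁻¹ * h) :=
  ⟨_, toWord_conj_mul b hh⟩

theorem flen_conj_mul (b : Bool) {h : FreeGroup (Option (Fin N))} (hh : ¬ StartS h) :
    flen wS (of none * mk [(some i0, b)] * (of none)⁻¹ * h) = 1 + flen wS h := by
  unfold flen
  rw [toWord_conj_mul b hh, wt_cons, wt_cons, wt_cons]
  simp [wS]
  ring

variable {i1}

/-- The word of `θ (mk u)` for a word `u` without letters `t`. -/
theorem theta_mk_A (n : ℕ) {u : List (Fin N × Bool)} (hu : ∀ x ∈ u, x.1 ≠ i0) :
    theta i0 i1 n (mk u) = mk (u.map (fun x => (some x.1, x.2))) := by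
  induction u with
  | nil => rw [← one_eq_mk, _root_.map_one]; rfl
  | cons x u ih =>
    have e1 : (mk (x :: u) : FreeGroup (Fin N)) = mk [x] * mk u := by rw [mul_mk]; rfl
    rw [e1, _root_.map_mul, ih (fun y hy => hu y (by simp [hy]))]
    have hx : theta i0 i1 n (mk [x]) = mk [(some x.1, x.2)] := by
      obtain ⟨i, b⟩ := x
      have hi : i ≠ i0 := hu (i, b) (by simp)
      cases b with
      | true => exact theta_ne i0 i1 n hi
      | false =>
        have e2 : (mk [(i, false)] : FreeGroup (Fin N)) = (of i)⁻¹ := by rw [of, inv_mk]; rfl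
        rw [e2, _root_.map_inv, theta_ne i0 i1 n hi, of, inv_mk]
        rfl
    rw [hx, mul_mk]
    rfl

theorem isReduced_map_some {u : List (Fin N × Bool)} (hu : FreeGroup.IsReduced u) :
    FreeGroup.IsReduced (u.map (fun x => ((some x.1, x.2) : Option (Fin N) × Bool))) := by
  unfold FreeGroup.IsReduced at *
  rw [List.isChain_map]
  apply List.IsChain.imp _ hu
  intro a b hab h
  simp only [Option.some.injEq] at h
  exact hab h

theorem toWord_theta_A (n : ℕ) {u : List (Fin N × Bool)} (hr : FreeGroup.IsReduced u)
    (hu : ∀ x ∈ u, x.1 ≠ i0) :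
    (theta i0 i1 n (mk u)).toWord = u.map (fun x => (some x.1, x.2)) := by
  rw [theta_mk_A n hu, toWord_mk, (isReduced_map_some hr).reduce_eq]

theorem isA_theta (n : ℕ) {u : List (Fin N × Bool)} (hr : FreeGroup.IsReduced u)
    (hu : ∀ x ∈ u, x.1 ≠ i0) : IsA i0 (theta i0 i1 n (mk u)) := by
  intro x hx
  rw [toWord_theta_A n hr hu] at hx
  obtain ⟨y, hy, rfl⟩ := List.mem_map.1 hx
  exact ⟨y.1, hu y hy, rfl⟩

theorem theta_A_ne_one (n : ℕ) {u : List (Fin N × Bool)} (hr : FreeGroup.IsReduced u)
    (hu : ∀ x ∈ u, x.1 ≠ i0) (hne : u ≠ []) : theta i0 i1 n (mk u) ≠ 1 := by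
  intro h
  have := toWord_theta_A (i1 := i1) n hr hu
  rw [h, toWord_one] at this
  exact hne (List.map_eq_nil_iff.1 this.symm)

theorem norm_theta_A (n : ℕ) {u : List (Fin N × Bool)} (hr : FreeGroup.IsReduced u)
    (hu : ∀ x ∈ u, x.1 ≠ i0) : FreeGroup.norm (theta i0 i1 n (mk u)) = u.length := by
  rw [FreeGroup.norm, toWord_theta_A n hr hu, List.length_map]

/-- Splitting a word at the first letter `t ^ ±1`. -/
theorem exists_split (i0 : Fin N) (w : List (Fin N × Bool)) :
    ∃ u r : List (Fin N × Bool), w = u ++ r ∧ (∀ x ∈ u, x.1 ≠ i0) ∧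
      (r = [] ∨ ∃ b r', r = (i0, b) :: r') := by
  induction w with
  | nil => exact ⟨[], [], rfl, by simp, Or.inl rfl⟩
  | cons x w ih =>
    obtain ⟨u, r, h1, h2, h3⟩ := ih
    by_cases hx : x.1 = i0
    · exact ⟨[], x :: w, rfl, by simp, Or.inr ⟨x.2, w, by rw [← hx]⟩⟩
    · refine ⟨x :: u, r, by rw [h1]; rfl, ?_, h3⟩
      intro y hy
      rcases List.mem_cons.1 hy with rfl | hy
      · exact hx
      · exact h2 y hy

theorem main_induction (h01 : i1 ≠ i0) (n : ℕ) : ∀ m : ℕ, ∀ w : List (Fin N × Bool),
    w.length = m → FreeGroup.IsReduced w → w.length < n →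
      flen wS (theta i0 i1 n (mk w)) = wt (wT i0) w ∧
      (∀ w', w = (i0, true) :: w' → StartS (theta i0 i1 n (mk w))) ∧
      (∀ w', w = (i0, false) :: w' → StartS (of (some i1) ^ n * theta i0 i1 n (mk w))) := by
  intro m
  induction m using Nat.strong_induction_on with
  | _ m IH =>
  intro w hwm hred hlen
  -- consequences of the induction hypothesis for shorter words
  have Q : ∀ w1 : List (Fin N × Bool), w1.length < m → FreeGroup.IsReduced w1 →
      w1.length < n →
      ((∀ r, w1 ≠ (i0, false) :: r) → ¬ StartS (of (some i1) ^ n * theta i0 i1 n (mk w1))) ∧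
      ((∀ r, w1 ≠ (i0, true) :: r) → ¬ StartS (theta i0 i1 n (mk w1))) := by
    intro w1 hw1 hred1 hlen1
    obtain ⟨u, r, rfl, hu, hr⟩ := exists_split i0 w1
    have hredu : FreeGroup.IsReduced u := isReduced_left hred1
    have hredr : FreeGroup.IsReduced r := isReduced_right hred1
    have hAu : IsA i0 (theta i0 i1 n (mk u)) := isA_theta n hredu hu
    have hAn : IsA i0 (of (some i1) ^ n) := isA_pow h01 n
    have hmul : theta i0 i1 n (mk (u ++ r)) = theta i0 i1 n (mk u) * theta i0 i1 n (mk r) := by
      rw [← mul_mk, _root_.map_mul]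
    rw [List.length_append] at hw1 hlen1
    have hnorm := norm_theta_A (i1 := i1) n hredu hu
    rcases hr with rfl | ⟨b, r', rfl⟩
    · rw [List.append_nil]
      exact ⟨fun _ => isA_not_startS (hAn.mul hAu), fun _ => isA_not_startS hAu⟩
    · have ih := IH _ (by omega) ((i0, b) :: r') rfl hredr (by omega)
      cases b with
      | true =>
        have hS := ih.2.1 r' rfl
        constructor
        · intro _
          rw [hmul, ← mul_assoc]
          apply isA_mul_not_startS (hAn.mul hAu) _ hS
          intro h
          have h1 : theta i0 i1 n (mk u) = (of (some i1) ^ n)⁻¹ := eq_inv_of_mul_eq_one_right h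
          rw [h1, norm_inv_eq, norm_of_pow] at hnorm
          omega
        · intro hne
          rw [hmul]
          apply isA_mul_not_startS hAu _ hS
          apply theta_A_ne_one n hredu hu
          rintro rfl
          exact hne r' rfl
      | false =>
        have hS := ih.2.2 r' rfl
        constructor
        · intro hne
          have e : of (some i1) ^ n * theta i0 i1 n (mk (u ++ (i0, false) :: r')) =
              (of (some i1) ^ n * theta i0 i1 n (mk u) * (of (some i1) ^ n)⁻¹) *
                (of (some i1) ^ n * theta i0 i1 n (mk ((i0, false) :: r'))) := by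
            rw [hmul]; group
          rw [e]
          apply isA_mul_not_startS ((hAn.mul hAu).mul hAn.inv) _ hS
          intro h
          have h1 : theta i0 i1 n (mk u) = 1 := by
            have : theta i0 i1 n (mk u) = (of (some i1) ^ n)⁻¹ *
              (of (some i1) ^ n * theta i0 i1 n (mk u) * (of (some i1) ^ n)⁻¹) *
                (of (some i1) ^ n) := by group
            rw [this, h]
            group
          apply theta_A_ne_one n hredu hu _ h1
          rintro rfl
          exact hne r' rfl
        · intro _
          have e : theta i0 i1 n (mk (u ++ (i0, false) :: r')) =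
              (theta i0 i1 n (mk u) * (of (some i1) ^ n)⁻¹) *
                (of (some i1) ^ n * theta i0 i1 n (mk ((i0, false) :: r'))) := by
            rw [hmul]; group
          rw [e]
          apply isA_mul_not_startS (hAu.mul hAn.inv) _ hS
          intro h
          have h1 : theta i0 i1 n (mk u) = of (some i1) ^ n := by
            rwa [mul_inv_eq_one] at h
          rw [h1, norm_of_pow] at hnorm
          omega
  cases w with
  | nil =>
    refine ⟨?_, by simp, by simp⟩
    rw [← one_eq_mk, _root_.map_one, flen_one, wt_nil]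
  | cons x w1 =>
    have hred1 : FreeGroup.IsReduced w1 := isReduced_right (l := [x]) hred
    have hlen' : w1.length + 1 = m := by simpa using hwm
    have hlen1 : w1.length < n := by
      have : (x :: w1).length = w1.length + 1 := rfl
      omega
    have ih1 := IH w1.length (by omega) w1 rfl hred1 hlen1
    have hQ := Q w1 (by omega) hred1 hlen1
    have e1 : theta i0 i1 n (mk (x :: w1)) = theta i0 i1 n (mk [x]) * theta i0 i1 n (mk w1) := by
      rw [← _root_.map_mul, mul_mk]
      rfl
    by_cases hx : x.1 = i0
    · obtain ⟨i, b⟩ := x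
      simp only at hx
      subst hx
      cases b with
      | true =>
        have hns : ¬ StartS (of (some i1) ^ n * theta i i1 n (mk w1)) := by
          apply hQ.1
          rintro r rfl
          rw [isReduced_cons_cons] at hred
          simp at hred
        have e2 : theta i i1 n (mk ((i, true) :: w1)) =
            of none * mk [(some i, true)] * (of none)⁻¹ *
              (of (some i1) ^ n * theta i i1 n (mk w1)) := by
          rw [e1]
          have h1 : theta i i1 n (mk [(i, true)]) = _ := theta_t i i1 n
          have h2 : (mk [(some i, true)] : FreeGroup (Option (Fin N))) = of (some i) := rfl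
          rw [h1, h2]
          simp only [mul_assoc]
        refine ⟨?_, ?_, ?_⟩
        · rw [e2, flen_conj_mul true hns, flen_isA_mul (isA_pow h01 n), ih1.1, wt_cons]
          simp [wT]
        · intro w' _
          rw [e2]
          exact startS_conj_mul true hns
        · intro w' h
          simp at h
      | false =>
        have hns : ¬ StartS (theta i i1 n (mk w1)) := by
          apply hQ.2
          rintro r rfl
          rw [isReduced_cons_cons] at hred
          simp at hred
        have e3 : of (some i1) ^ n * theta i i1 n (mk ((i, false) :: w1)) =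
            of none * mk [(some i, false)] * (of none)⁻¹ * theta i i1 n (mk w1) := by
          rw [e1]
          have h1 : (mk [(i, false)] : FreeGroup (Fin N)) = (of i)⁻¹ := by rw [of, inv_mk]; rfl
          have h2 : (mk [(some i, false)] : FreeGroup (Option (Fin N))) = (of (some i))⁻¹ := by
            rw [of, inv_mk]; rfl
          rw [h1, h2, _root_.map_inv, theta_t]
          group
        refine ⟨?_, ?_, ?_⟩
        · have e4 : theta i i1 n (mk ((i, false) :: w1)) = (of (some i1) ^ n)⁻¹ *
              (of none * mk [(some i, false)] * (of none)⁻¹ * theta i i1 n (mk w1)) := by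
            rw [← e3]; group
          rw [e4, flen_isA_mul (isA_pow h01 n).inv, flen_conj_mul false hns, ih1.1, wt_cons]
          simp [wT]
        · intro w' h
          simp at h
        · intro w' _
          rw [e3]
          exact startS_conj_mul false hns
    · refine ⟨?_, ?_, ?_⟩
      · have hA : IsA i0 (theta i0 i1 n (mk [x])) :=
          isA_theta n IsReduced.singleton (by simpa using hx)
        rw [e1, flen_isA_mul hA, ih1.1, wt_cons]
        simp [wT, hx]
      · rintro w' h
        rw [List.cons.injEq] at h
        exact absurd (by rw [h.1]) hx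
      · rintro w' h
        rw [List.cons.injEq] at h
        exact absurd (by rw [h.1]) hx

/-- For elements of norm less than `n` the twisted length is the number of letters `t ^ ±1`. -/
theorem flen_theta_eq (h01 : i1 ≠ i0) (n : ℕ) (g : FreeGroup (Fin N)) (hg : FreeGroup.norm g < n) :
    flen wS (theta i0 i1 n g) = flen (wT i0) g := by
  have := (main_induction h01 n _ g.toWord rfl isReduced_toWord hg).1
  rwa [mk_toWord] at this

/-- The element `t a⁻ⁿ` has twisted length one, and so has its square. -/
theorem flen_theta_elliptic (n : ℕ) (h01 : i1 ≠ i0) :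
    flen wS (theta i0 i1 n (of i0 * (of i1 ^ n)⁻¹)) = 1 ∧
    flen wS (theta i0 i1 n ((of i0 * (of i1 ^ n)⁻¹) * (of i0 * (of i1 ^ n)⁻¹))) = 1 := by
  have e : theta i0 i1 n (of i0 * (of i1 ^ n)⁻¹) =
      of none * mk [(some i0, true)] * (of none)⁻¹ * 1 := by
    rw [_root_.map_mul, _root_.map_inv, _root_.map_pow, theta_t, theta_ne i0 i1 n h01]
    have : (mk [(some i0, true)] : FreeGroup (Option (Fin N))) = of (some i0) := rfl
    rw [this]
    group
  have hns : ¬ StartS (1 : FreeGroup (Option (Fin N))) := by
    rintro ⟨r, hr⟩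
    simp at hr
  have e2 : theta i0 i1 n ((of i0 * (of i1 ^ n)⁻¹) * (of i0 * (of i1 ^ n)⁻¹)) =
      mk [(none, true), (some i0, true), (some i0, true), (none, false)] := by
    rw [_root_.map_mul, e, mul_one, of, inv_mk, mul_mk, mul_mk, mul_mk]
    apply Quot.sound
    exact Red.Step.not (L₁ := [(none, true), (some i0, true)]) (x := none) (b := false)
  refine ⟨?_, ?_⟩
  · rw [e, flen_conj_mul true hns, flen_one, add_zero]
  · rw [e2, flen_mk]
    · simp only [wt_cons, wt_nil, wS, if_true, reduceCtorEq, if_false]
      norm_num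
    · simp [isReduced_cons_cons]

/-- The exponent sum of `t`. -/
def expSum (i0 : Fin N) : FreeGroup (Fin N) →* Multiplicative ℝ :=
  FreeGroup.lift (fun i => Multiplicative.ofAdd (wT i0 i))

theorem expSum_le (l : List (Fin N × Bool)) :
    Multiplicative.toAdd (expSum i0 (mk l)) ≤ wt (wT i0) l := by
  induction l with
  | nil => rw [← one_eq_mk, _root_.map_one, wt_nil]; exact le_rfl
  | cons x l ih =>
    have e1 : (mk (x :: l) : FreeGroup (Fin N)) = mk [x] * mk l := by rw [mul_mk]; rfl
    rw [e1, _root_.map_mul, wt_cons, toAdd_mul]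
    have h : Multiplicative.toAdd (expSum i0 (mk [x])) ≤ wT i0 x.1 := by
      obtain ⟨i, b⟩ := x
      cases b with
      | true =>
        have : expSum i0 (mk [(i, true)]) = Multiplicative.ofAdd (wT i0 i) := by
          change expSum i0 (of i) = _
          simp [expSum]
        rw [this]
        exact le_rfl
      | false =>
        have h1 : (mk [(i, false)] : FreeGroup (Fin N)) = (of i)⁻¹ := by rw [of, inv_mk]; rfl
        have : expSum i0 (mk [(i, false)]) = (Multiplicative.ofAdd (wT i0 i))⁻¹ := by
          rw [h1]
          simp [expSum]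
        rw [this, toAdd_inv, toAdd_ofAdd]
        have := wT_nonneg i0 i
        linarith
    linarith

theorem expSum_le_flen (g : FreeGroup (Fin N)) :
    Multiplicative.toAdd (expSum i0 g) ≤ flen (wT i0) g := by
  have := expSum_le (i0 := i0) g.toWord
  rwa [mk_toWord] at this

/-- The untwisted lengths of `t a⁻ⁿ` and of its square. -/
theorem flen_hyperbolic (n : ℕ) (h01 : i1 ≠ i0) :
    flen (wT i0) (of i0 * (of i1 ^ n)⁻¹) = 1 ∧
    flen (wT i0) ((of i0 * (of i1 ^ n)⁻¹) * (of i0 * (of i1 ^ n)⁻¹)) = 2 := by
  have h0 : flen (wT i0) (of i0) = 1 := by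
    rw [flen, toWord_of, wt_cons, wt_nil]
    simp [wT]
  have h1 : flen (wT i0) (of i1 ^ n)⁻¹ = 0 := by
    rw [flen_inv, flen, toWord_of_pow]
    apply wt_eq_zero
    intro x hx
    rw [List.eq_of_mem_replicate hx]
    simp [wT, h01]
  have e1 : Multiplicative.toAdd (expSum i0 (of i0 * (of i1 ^ n)⁻¹)) = 1 := by
    simp [expSum, wT, h01]
  have u1 := flen_mul_le (wT_nonneg i0) (of i0) (of i1 ^ n)⁻¹
  have l1 := expSum_le_flen (i0 := i0) (of i0 * (of i1 ^ n)⁻¹)
  have u2 := flen_mul_le (wT_nonneg i0) (of i0 * (of i1 ^ n)⁻¹) (of i0 * (of i1 ^ n)⁻¹)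
  have l2 := expSum_le_flen (i0 := i0) ((of i0 * (of i1 ^ n)⁻¹) * (of i0 * (of i1 ^ n)⁻¹))
  rw [_root_.map_mul, toAdd_mul, e1] at l2
  rw [e1] at l1
  constructor <;> linarith

end Pool.Agent.H2
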